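import Pool.Agent.K1H19.Kom.Stm

/-!
# ACC2: the sum of the growth function over prefixes
-/

namespace Pool.Agent.K1H30.KomA

open K19Kom Finset

/-- The bound for a row of maximal relevant level `p`. -/
noncomputable def BB (p : ℕ) : ℝ := Real.exp (Real.log 2 / 2 * 2 ^ p)

lemma BB_pos (p : ℕ) : 0 < BB p := Real.exp_pos _

lemma BB_sq (p : ℕ) : BB p * BB p = 2 ^ (2 ^ p) := by
  unfold BB
  rw [← Real.exp_add, show Real.log 2 / 2 * 2 ^ p + Real.log 2 / 2 * 2 ^ p
    = ((2 ^ p : ℕ) : ℝ) * Real.log 2 by push_cast; ring, Real.exp_nat_mul,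
    Real.exp_log (by norm_num)]

lemma log2_ge : (1 : ℝ) / 2 ≤ Real.log 2 := by
  have := Real.log_two_gt_d9
  linarith

lemma BB_lower (p : ℕ) : (32 : ℝ) ^ p ≤ 122880 * BB p := by
  have hy : (2 : ℝ) ^ p / 4 ≤ Real.log 2 / 2 * 2 ^ p := by
    have h2 : (0 : ℝ) < 2 ^ p := by positivity
    nlinarith [log2_ge]
  have h0 : (0 : ℝ) ≤ 2 ^ p / 4 := by positivity
  have h1 : ((2 : ℝ) ^ p / 4) ^ 5 / (Nat.factorial 5 : ℝ) ≤ Real.exp ((2 : ℝ) ^ p / 4) :=
    Real.pow_div_factorial_le_exp _ h0 5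
  have h2 : Real.exp ((2 : ℝ) ^ p / 4) ≤ BB p := Real.exp_le_exp.mpr hy
  have h3 : ((2 : ℝ) ^ p / 4) ^ 5 / (Nat.factorial 5 : ℝ) = 32 ^ p / 122880 := by
    have h4 : ((2 : ℝ) ^ p) ^ 5 = 32 ^ p := by
      rw [← pow_mul, mul_comm, pow_mul]; norm_num
    rw [div_pow, h4]
    norm_num [Nat.factorial]
    ring
  rw [h3] at h1
  linarith

lemma key_mono {x X : ℝ} (hx : 0 ≤ x) (hX : x ≤ X) :
    x ^ 4 / (1 + Real.log (1 + x)) ^ 2 ≤ X ^ 4 / (1 + Real.log (1 + X)) ^ 2 := by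
  rcases eq_or_lt_of_le hx with h | h
  · subst h
    have : (0 : ℝ) ≤ X ^ 4 / (1 + Real.log (1 + X)) ^ 2 := by positivity
    simpa using this
  · have hXp : 0 < X := lt_of_lt_of_le h hX
    have hlx : 0 ≤ Real.log (1 + x) := Real.log_nonneg (by linarith)
    have hlX : 0 ≤ Real.log (1 + X) := Real.log_nonneg (by linarith)
    have h1 : Real.log (1 + X) ≤ Real.log (1 + x) + Real.log (X / x) := by
      rw [← Real.log_mul (by positivity) (by positivity)]
      apply Real.log_le_log (by positivity)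
      rw [mul_div_assoc', le_div_iff₀ h]
      nlinarith
    have h2 : Real.log (X / x) ≤ X / x - 1 := Real.log_le_sub_one_of_pos (by positivity)
    have h3 : x * (1 + Real.log (1 + X)) ≤ X * (1 + Real.log (1 + x)) := by
      have h4 : x * (X / x) = X := by field_simp
      have h5 : x * (1 + Real.log (1 + X)) ≤ x * (Real.log (1 + x) + X / x) := by
        apply mul_le_mul_of_nonneg_left _ h.le
        linarith
      have h6 : x * (Real.log (1 + x) + X / x) = x * Real.log (1 + x) + X := by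
        rw [mul_add, h4]
      have h7 : x * Real.log (1 + x) ≤ X * Real.log (1 + x) :=
        mul_le_mul_of_nonneg_right hX hlx
      linarith
    rw [div_le_div_iff₀ (by positivity) (by positivity)]
    have h4 : (x * (1 + Real.log (1 + X))) ^ 2 ≤ (X * (1 + Real.log (1 + x))) ^ 2 :=
      pow_le_pow_left₀ (by positivity) h3 2
    have h5 : x ^ 2 ≤ X ^ 2 := pow_le_pow_left₀ hx hX 2
    calc x ^ 4 * (1 + Real.log (1 + X)) ^ 2 = x ^ 2 * (x * (1 + Real.log (1 + X))) ^ 2 := by ring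
      _ ≤ X ^ 2 * (X * (1 + Real.log (1 + x))) ^ 2 :=
          mul_le_mul h5 h4 (by positivity) (by positivity)
      _ = X ^ 4 * (1 + Real.log (1 + x)) ^ 2 := by ring

lemma bd_nonneg (p : ℕ) : 0 ≤ bd p := by unfold bd; positivity

lemma bd_four (p : ℕ) :
    bd p ^ 4 = 260 ^ 4 * 10 ^ 4 * ((p : ℝ) + 1) ^ 2 * 2 ^ p := by
  have h1 : Real.sqrt (hp p) ^ 2 = hp p := Real.sq_sqrt (by unfold hp; positivity)
  have h2 : Real.sqrt ((2 : ℝ) ^ p) ^ 2 = 2 ^ p := Real.sq_sqrt (by positivity)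
  have h3 : hp p ^ 2 = 10 ^ 4 * ((p : ℝ) + 1) ^ 2 * 2 ^ p := by
    unfold hp
    calc (100 * ((p : ℝ) + 1) * Real.sqrt (2 ^ p)) ^ 2
        = 10 ^ 4 * ((p : ℝ) + 1) ^ 2 * Real.sqrt ((2 : ℝ) ^ p) ^ 2 := by ring
      _ = _ := by rw [h2]
  calc bd p ^ 4 = 260 ^ 4 * (Real.sqrt (hp p) ^ 2) ^ 2 := by unfold bd; ring
    _ = 260 ^ 4 * (10 ^ 4 * ((p : ℝ) + 1) ^ 2 * 2 ^ p) := by rw [h1, h3]
    _ = _ := by ring

lemma growth {C1 : ℝ} (h1 : 1 ≤ C1) (p : ℕ) :
    (C1 * bd p) ^ 4 / (1 + Real.log (1 + C1 * bd p)) ^ 2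
      ≤ C1 ^ 4 * (260 ^ 4 * 10 ^ 4 * 64) * 2 ^ p := by
  set X : ℝ := C1 * bd p with hX
  have hX4 : X ^ 4 = C1 ^ 4 * (260 ^ 4 * 10 ^ 4 * ((p : ℝ) + 1) ^ 2 * 2 ^ p) := by
    rw [hX, mul_pow, bd_four]
  have hC4 : (1 : ℝ) ≤ C1 ^ 4 := one_le_pow₀ h1
  have hX0 : 0 ≤ X := mul_nonneg (by linarith) (bd_nonneg p)
  have hp1 : (1 : ℝ) ≤ ((p : ℝ) + 1) ^ 2 := one_le_pow₀ (by
    have : (0 : ℝ) ≤ p := Nat.cast_nonneg p
    linarith)
  have hX2 : (2 : ℝ) ^ p ≤ X ^ 4 := by
    rw [hX4]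
    have h2 : (0 : ℝ) < 2 ^ p := by positivity
    have h3 : (1 : ℝ) ≤ C1 ^ 4 * (260 ^ 4 * 10 ^ 4 * ((p : ℝ) + 1) ^ 2) := by
      have h4 : (1 : ℝ) ≤ 260 ^ 4 * 10 ^ 4 * ((p : ℝ) + 1) ^ 2 := by nlinarith
      nlinarith
    calc (2 : ℝ) ^ p = 1 * 2 ^ p := by ring
      _ ≤ (C1 ^ 4 * (260 ^ 4 * 10 ^ 4 * ((p : ℝ) + 1) ^ 2)) * 2 ^ p :=
        mul_le_mul_of_nonneg_right h3 h2.le
      _ = _ := by ring
  have hXpos : 0 < X := by
    rcases eq_or_lt_of_le hX0 with h | h
    · exfalso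
      rw [← h] at hX2
      have h2 : (0 : ℝ) < 2 ^ p := by positivity
      norm_num at hX2
      linarith
    · exact h
  have hlog : (p : ℝ) / 8 ≤ Real.log (1 + X) := by
    have h2 : Real.log ((2 : ℝ) ^ p) ≤ Real.log (X ^ 4) := Real.log_le_log (by positivity) hX2
    rw [Real.log_pow, Real.log_pow] at h2
    have h3 : Real.log X ≤ Real.log (1 + X) := Real.log_le_log hXpos (by linarith)
    have h4 : (p : ℝ) * (1 / 2) ≤ p * Real.log 2 :=
      mul_le_mul_of_nonneg_left log2_ge (Nat.cast_nonneg p)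
    push_cast at h2
    linarith
  have hden : ((p : ℝ) + 1) / 8 ≤ 1 + Real.log (1 + X) := by linarith
  have hp0 : (0 : ℝ) < (p : ℝ) + 1 := by positivity
  have hden2 : (((p : ℝ) + 1) / 8) ^ 2 ≤ (1 + Real.log (1 + X)) ^ 2 :=
    pow_le_pow_left₀ (by positivity) hden 2
  calc X ^ 4 / (1 + Real.log (1 + X)) ^ 2 ≤ X ^ 4 / (((p : ℝ) + 1) / 8) ^ 2 := by
        apply div_le_div_of_nonneg_left (by positivity) (by positivity) hden2
    _ = C1 ^ 4 * (260 ^ 4 * 10 ^ 4 * 64) * 2 ^ p := by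
        rw [hX4]
        field_simp
        ring

/-- The constant of the growth. -/
noncomputable def cc (C1 : ℝ) : ℝ := Real.log 2 / 2 / (C1 ^ 4 * (260 ^ 4 * 10 ^ 4 * 64))

lemma cc_pos {C1 : ℝ} (h1 : 1 ≤ C1) : 0 < cc C1 := by
  unfold cc
  have := log2_ge
  positivity

lemma Psi_le {C1 : ℝ} (h1 : 1 ≤ C1) (p : ℕ) {x : ℝ} (hx : |x| ≤ C1 * bd p) :
    Psi (cc C1) x ≤ BB p := by
  unfold Psi BB
  apply Real.exp_le_exp.mpr
  have h2 : x ^ 4 = |x| ^ 4 := by
    rw [show (4 : ℕ) = 2 * 2 by norm_num, pow_mul, pow_mul, sq_abs]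
  rw [h2]
  have h3 := (key_mono (abs_nonneg x) hx).trans (growth h1 p)
  have h4 := mul_le_mul_of_nonneg_left h3 (cc_pos h1).le
  refine h4.trans (le_of_eq ?_)
  unfold cc
  have h5 : C1 ^ 4 ≠ 0 := by positivity
  field_simp

/-- Sum over the times for a fixed level. -/
lemma sum_T (M p : ℕ) :
    ∑ T ∈ (range (M + 1)).filter (fun T => T + 2 ^ p ≤ M), (64 * 2 ^ (T + 1) * 16 ^ p : ℝ)
      ≤ 256 * 16 ^ p * 2 ^ M / 2 ^ (2 ^ p) := by
  by_cases hM : 2 ^ p ≤ M
  · obtain ⟨N, hN⟩ := Nat.exists_eq_add_of_le hM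
    have hsub : (range (M + 1)).filter (fun T => T + 2 ^ p ≤ M) ⊆ range (N + 1) := by
      intro T hT
      rw [mem_filter, mem_range] at hT
      rw [mem_range]
      omega
    have h1 : ∑ T ∈ (range (M + 1)).filter (fun T => T + 2 ^ p ≤ M),
        (64 * 2 ^ (T + 1) * 16 ^ p : ℝ) ≤ ∑ T ∈ range (N + 1), (64 * 2 ^ (T + 1) * 16 ^ p : ℝ) :=
      sum_le_sum_of_subset_of_nonneg hsub fun _ _ _ => by positivity
    have h2 : ∀ n : ℕ, ∑ T ∈ range n, (64 * 2 ^ (T + 1) * 16 ^ p : ℝ)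
        = 128 * 16 ^ p * (2 ^ n - 1) := by
      intro n
      induction n with
      | zero => simp
      | succ n ih => rw [sum_range_succ, ih]; ring
    rw [h2] at h1
    refine h1.trans ?_
    rw [le_div_iff₀ (by positivity)]
    have h3 : (2 : ℝ) ^ M = 2 ^ (2 ^ p) * 2 ^ N := by rw [hN, pow_add]
    rw [h3]
    have h4 : (0 : ℝ) ≤ 16 ^ p * 2 ^ (2 ^ p) := by positivity
    calc (128 * 16 ^ p * (2 ^ (N + 1) - 1) * 2 ^ (2 ^ p) : ℝ)
        = 256 * 16 ^ p * (2 ^ (2 ^ p) * 2 ^ N) - 128 * (16 ^ p * 2 ^ (2 ^ p)) := by ring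
      _ ≤ 256 * 16 ^ p * (2 ^ (2 ^ p) * 2 ^ N) := by linarith
  · have h1 : (range (M + 1)).filter (fun T => T + 2 ^ p ≤ M) = ∅ := by
      apply filter_eq_empty_iff.mpr
      intro T _ hT
      exact hM (by omega)
    rw [h1, sum_empty]
    positivity

theorem t_ACC2 : S_ACC2 := by
  intro hW C hC
  classical
  obtain ⟨hW1, -, -⟩ := hW
  set C1 : ℝ := max C 1 with hC1
  have h1 : 1 ≤ C1 := le_max_right _ _
  refine ⟨cc C1, BB 0 + 62914560, cc_pos h1, by have := BB_pos 0; positivity, ?_⟩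
  intro d Rel x hRel hx m hm
  rcases Nat.eq_zero_or_pos m with hm0 | hm0
  · subst hm0
    simp
  set M : ℕ := Nat.log 2 m with hM
  set P : Fin d → ℕ := fun i =>
    ((range (scl i)).filter (fun T => i ∈ Rel T (lvl (scl i) T))).sup
      (fun T => lvl (scl i) T) with hP
  have hPx : ∀ i, |x i| ≤ C1 * bd (P i) := by
    intro i
    have h2 : |x i| ≤ C * bd (P i) := by
      apply hx i (P i)
      intro T hT hi
      exact Finset.le_sup (f := fun T => lvl (scl i) T)
        (mem_filter.mpr ⟨mem_range.mpr hT, hi⟩)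
    exact h2.trans (mul_le_mul_of_nonneg_right (le_max_left _ _) (bd_nonneg _))
  have hpt : ∀ i ∈ univ.filter (fun i : Fin d => i.val < m), Psi (cc C1) (x i) ≤
      BB 0 + ∑ p ∈ range (M + 1), ∑ T ∈ (range (M + 1)).filter (fun T => T + 2 ^ p ≤ M),
        (if i ∈ Rel T p then BB p else 0) := by
    intro i hi
    rw [mem_filter] at hi
    refine (Psi_le h1 (P i) (hPx i)).trans ?_
    have hnn : ∀ p T, (0 : ℝ) ≤ if i ∈ Rel T p then BB p else 0 := by
      intro p T
      split_ifs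
      · exact (BB_pos p).le
      · exact le_rfl
    rcases ((range (scl i)).filter (fun T => i ∈ Rel T (lvl (scl i) T))).eq_empty_or_nonempty
      with he | hne
    · have h0 : P i = 0 := by
        show ((range (scl i)).filter (fun T => i ∈ Rel T (lvl (scl i) T))).sup
          (fun T => lvl (scl i) T) = 0
        rw [he]
        simp
      rw [h0]
      have h2 : (0 : ℝ) ≤ ∑ p ∈ range (M + 1),
          ∑ T ∈ (range (M + 1)).filter (fun T => T + 2 ^ p ≤ M),
            (if i ∈ Rel T p then BB p else 0) :=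
        sum_nonneg fun p _ => sum_nonneg fun T _ => hnn p T
      linarith
    · obtain ⟨T, hT, hTe⟩ := exists_mem_eq_sup _ hne (fun T => lvl (scl i) T)
      rw [mem_filter, mem_range] at hT
      have hTe' : P i = lvl (scl i) T := hTe
      have hsc : scl i ≤ M := by
        unfold scl
        exact Nat.log_mono_right (by omega)
      have h3 : T + 2 ^ (P i) ≤ M := by
        rw [hTe']
        exact (hW1 _ _ hT.1).trans hsc
      have h4 : P i < 2 ^ (P i) := Nat.lt_two_pow_self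
      have h5 : P i ∈ range (M + 1) := by
        rw [mem_range]; omega
      have h6 : T ∈ (range (M + 1)).filter (fun T => T + 2 ^ (P i) ≤ M) := by
        rw [mem_filter, mem_range]
        exact ⟨by omega, h3⟩
      have h7 : i ∈ Rel T (P i) := by rw [hTe']; exact hT.2
      have h8 : BB (P i) ≤ ∑ T ∈ (range (M + 1)).filter (fun T => T + 2 ^ (P i) ≤ M),
            (if i ∈ Rel T (P i) then BB (P i) else 0) := by
        have h9 := single_le_sum (f := fun T => if i ∈ Rel T (P i) then BB (P i) else 0)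
          (fun T _ => hnn (P i) T) h6
        simpa [h7] using h9
      have h10 : ∑ T ∈ (range (M + 1)).filter (fun T => T + 2 ^ (P i) ≤ M),
            (if i ∈ Rel T (P i) then BB (P i) else 0) ≤ ∑ p ∈ range (M + 1),
          ∑ T ∈ (range (M + 1)).filter (fun T => T + 2 ^ p ≤ M),
            (if i ∈ Rel T p then BB p else 0) :=
        single_le_sum (f := fun p => ∑ T ∈ (range (M + 1)).filter (fun T => T + 2 ^ p ≤ M),
            (if i ∈ Rel T p then BB p else 0))
          (fun p _ => sum_nonneg fun T _ => hnn p T) h5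
      have := BB_pos 0
      linarith
  refine (sum_le_sum hpt).trans ?_
  rw [sum_add_distrib, sum_const, nsmul_eq_mul]
  have hcard : ((univ.filter (fun i : Fin d => i.val < m)).card : ℝ) ≤ m := by
    have h2 : (univ.filter (fun i : Fin d => i.val < m)).card ≤ (range m).card := by
      apply card_le_card_of_injOn (fun i : Fin d => i.val)
      · intro i hi
        have hi' := (mem_filter.mp (mem_coe.mp hi)).2
        exact mem_coe.mpr (mem_range.mpr hi')
      · intro a _ b _ hab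
        exact Fin.ext hab
    rw [card_range] at h2
    exact_mod_cast h2
  have hm1 : (2 : ℝ) ^ M ≤ m := by
    exact_mod_cast Nat.pow_log_le_self 2 (by omega)
  have hswap : ∑ i ∈ univ.filter (fun i : Fin d => i.val < m),
      ∑ p ∈ range (M + 1), ∑ T ∈ (range (M + 1)).filter (fun T => T + 2 ^ p ≤ M),
        (if i ∈ Rel T p then BB p else 0) ≤ ∑ p ∈ range (M + 1), 31457280 * (1 / 2 : ℝ) ^ p * (m : ℝ) := by
    rw [sum_comm]
    apply sum_le_sum
    intro p _
    rw [sum_comm]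
    have h2 : ∀ T ∈ (range (M + 1)).filter (fun T => T + 2 ^ p ≤ M),
        ∑ i ∈ univ.filter (fun i : Fin d => i.val < m), (if i ∈ Rel T p then BB p else 0)
          ≤ (64 * 2 ^ (T + 1) * 16 ^ p) * BB p := by
      intro T _
      rw [← sum_filter, sum_const, nsmul_eq_mul]
      apply mul_le_mul_of_nonneg_right _ (BB_pos p).le
      refine le_trans ?_ (hRel T p)
      have h3 : ((univ.filter (fun i : Fin d => i.val < m)).filter (fun i => i ∈ Rel T p)).card
          ≤ (Rel T p).card := by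
        apply card_le_card
        intro i hi
        exact (mem_filter.mp hi).2
      exact_mod_cast h3
    refine (sum_le_sum h2).trans ?_
    rw [← sum_mul]
    have h4 := mul_le_mul_of_nonneg_right (sum_T M p) (BB_pos p).le
    refine h4.trans ?_
    rw [← BB_sq p]
    have hB := BB_pos p
    have h5 : 256 * 16 ^ p * 2 ^ M / (BB p * BB p) * BB p = 256 * 16 ^ p * 2 ^ M / BB p := by
      field_simp
    rw [h5, div_le_iff₀ hB]
    have h6 := BB_lower p
    have h7 : (16 : ℝ) ^ p = 32 ^ p * (1 / 2) ^ p := by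
      rw [← mul_pow]; norm_num
    rw [h7]
    have h8 : (0 : ℝ) ≤ (1 / 2) ^ p := by positivity
    calc 256 * (32 ^ p * (1 / 2) ^ p) * 2 ^ M = 256 * (1 / 2 : ℝ) ^ p * (32 ^ p * 2 ^ M) := by ring
      _ ≤ 256 * (1 / 2 : ℝ) ^ p * ((122880 * BB p) * m) := by
          apply mul_le_mul_of_nonneg_left _ (by positivity)
          exact mul_le_mul h6 hm1 (by positivity) (by positivity)
      _ = 31457280 * (1 / 2) ^ p * m * BB p := by ring
  have hgeo : ∑ p ∈ range (M + 1), 31457280 * (1 / 2 : ℝ) ^ p * (m : ℝ) ≤ 62914560 * m := by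
    have h2 : ∀ n : ℕ, ∑ p ∈ range n, (31457280 * (1 / 2 : ℝ) ^ p * (m : ℝ))
        = 62914560 * (1 - (1 / 2) ^ n) * m := by
      intro n
      induction n with
      | zero => simp
      | succ n ih => rw [sum_range_succ, ih]; ring
    rw [h2]
    have h3 : (0 : ℝ) ≤ (1 / 2) ^ (M + 1) * m := by positivity
    nlinarith
  have hB0 := BB_pos 0
  have h9 : ((univ.filter (fun i : Fin d => i.val < m)).card : ℝ) * BB 0 ≤ m * BB 0 :=
    mul_le_mul_of_nonneg_right hcard hB0.le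
  calc _ ≤ m * BB 0 + 62914560 * m := add_le_add h9 (hswap.trans hgeo)
    _ = (BB 0 + 62914560) * m := by ring

end Pool.Agent.K1H30.KomA
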