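import Pool.Agent.K1H19.Kom2.Stm
import Pool.Agent.K1H30.Kom.Acc2

/-!
# ACCB2: the sum of the tail function over prefixes
-/

namespace Pool.Agent.K1H30.KomB

open K19Kom K19Kom2 Finset Pool.Agent.K1H30.KomA

/-- The bound for a row of maximal relevant level `r + 1`. -/
noncomputable def WW (r : ℕ) : ℝ := Real.exp (Real.log 2 / 4 * 2 ^ r)

lemma WW_pos (r : ℕ) : 0 < WW r := Real.exp_pos _

lemma WW_sq (r : ℕ) : WW r * WW r = BB r := by
  unfold WW BB
  rw [← Real.exp_add]
  congr 1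
  ring

lemma WW_mono {p r : ℕ} (h : p ≤ r) : WW p ≤ WW r := by
  unfold WW
  apply Real.exp_le_exp.mpr
  have h1 := log2_ge
  have h2 : (2 : ℝ) ^ p ≤ 2 ^ r := pow_le_pow_right₀ (by norm_num) h
  nlinarith

lemma key_mono2 {x X : ℝ} (hx : 0 ≤ x) (hX : x ≤ X) :
    x ^ 2 / (1 + Real.log (1 + x)) ^ 2 ≤ X ^ 2 / (1 + Real.log (1 + X)) ^ 2 := by
  rcases eq_or_lt_of_le hx with h | h
  · subst h
    have : (0 : ℝ) ≤ X ^ 2 / (1 + Real.log (1 + X)) ^ 2 := by positivity
    simpa using this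
  · have hXp : 0 < X := lt_of_lt_of_le h hX
    have hlx : 0 ≤ Real.log (1 + x) := Real.log_nonneg (by linarith)
    have hlX : 0 ≤ Real.log (1 + X) := Real.log_nonneg (by linarith)
    have h1 : Real.log (1 + X) ≤ Real.log (1 + x) + Real.log (X / x) := by
      rw [← Real.log_mul (by positivity) (by positivity)]
      apply Real.log_le_log (by positivity)
      rw [mul_div_assoc', le_div_iff₀ h]
      nlinarith
    have h2 : Real.log (X / x) ≤ X / x - 1 := Real.log_le_sub_one_of_pos (by positivity)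
    have h3 : x * (1 + Real.log (1 + X)) ≤ X * (1 + Real.log (1 + x)) := by
      have h4 : x * (X / x) = X := by field_simp
      have h5 : x * (1 + Real.log (1 + X)) ≤ x * (Real.log (1 + x) + X / x) := by
        apply mul_le_mul_of_nonneg_left _ h.le
        linarith
      have h6 : x * (Real.log (1 + x) + X / x) = x * Real.log (1 + x) + X := by
        rw [mul_add, h4]
      have h7 : x * Real.log (1 + x) ≤ X * Real.log (1 + x) :=
        mul_le_mul_of_nonneg_right hX hlx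
      linarith
    rw [div_le_div_iff₀ (by positivity) (by positivity)]
    have h4 : (x * (1 + Real.log (1 + X))) ^ 2 ≤ (X * (1 + Real.log (1 + x))) ^ 2 :=
      pow_le_pow_left₀ (by positivity) h3 2
    calc x ^ 2 * (1 + Real.log (1 + X)) ^ 2 = (x * (1 + Real.log (1 + X))) ^ 2 := by ring
      _ ≤ (X * (1 + Real.log (1 + x))) ^ 2 := h4
      _ = X ^ 2 * (1 + Real.log (1 + x)) ^ 2 := by ring

lemma hp_pos (p : ℕ) : 0 < hp p := by unfold hp; positivity

lemma hp_mono {p q : ℕ} (h : p ≤ q) : hp p ≤ hp q := by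
  unfold hp
  have h1 : (p : ℝ) ≤ q := by exact_mod_cast h
  have h2 : Real.sqrt ((2 : ℝ) ^ p) ≤ Real.sqrt (2 ^ q) :=
    Real.sqrt_le_sqrt (pow_le_pow_right₀ (by norm_num) h)
  gcongr

lemma hp_sq (p : ℕ) : hp p ^ 2 = 10 ^ 4 * ((p : ℝ) + 1) ^ 2 * 2 ^ p := by
  have h2 : Real.sqrt ((2 : ℝ) ^ p) ^ 2 = 2 ^ p := Real.sq_sqrt (by positivity)
  unfold hp
  calc (100 * ((p : ℝ) + 1) * Real.sqrt (2 ^ p)) ^ 2
      = 10 ^ 4 * ((p : ℝ) + 1) ^ 2 * Real.sqrt ((2 : ℝ) ^ p) ^ 2 := by ring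
    _ = _ := by rw [h2]

lemma lamt_sq {t : ℝ} (ht : 1 ≤ t) : lamt t ^ 2 = (1 + Real.log t) ^ 3 := by
  have h1 : 0 ≤ Real.log t := Real.log_nonneg ht
  unfold lamt
  rw [← Real.rpow_natCast, ← Real.rpow_mul (by positivity), ← Real.rpow_natCast]
  norm_num

lemma lamt_ge {t : ℝ} (ht : 1 ≤ t) : 1 ≤ lamt t := by
  have h1 : 0 ≤ Real.log t := Real.log_nonneg ht
  unfold lamt
  exact Real.one_le_rpow (by linarith) (by norm_num)

lemma G2_le {C1 t : ℝ} (h1 : 1 ≤ C1) (ht : 1 ≤ t) (p : ℕ) {u : ℝ}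
    (hu : |u| ≤ 2 * C1 * (hp p * lamt t)) : G2 t u ≤ C1 ^ 2 * 640000 * 2 ^ p := by
  have hlt : 0 ≤ Real.log t := Real.log_nonneg ht
  set X : ℝ := 2 * C1 * (hp p * lamt t) with hX
  have hlam := lamt_ge ht
  have hX2 : X ^ 2 = (1 + Real.log t) ^ 3 * (C1 ^ 2 * 40000 * ((p : ℝ) + 1) ^ 2 * 2 ^ p) := by
    calc X ^ 2 = 4 * C1 ^ 2 * hp p ^ 2 * lamt t ^ 2 := by rw [hX]; ring
      _ = _ := by rw [hp_sq, lamt_sq ht]; ring
  have hXpos : 0 < X := by
    have := hp_pos p
    rw [hX]; positivity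
  have hC2 : (1 : ℝ) ≤ C1 ^ 2 := one_le_pow₀ h1
  have hp0 : (0 : ℝ) ≤ p := Nat.cast_nonneg p
  have h2p : (0 : ℝ) < 2 ^ p := by positivity
  have hX3 : (2 : ℝ) ^ p ≤ X ^ 2 := by
    rw [hX2]
    have a1 : (1 : ℝ) ≤ (1 + Real.log t) ^ 3 := one_le_pow₀ (by linarith)
    have a2 : (1 : ℝ) ≤ ((p : ℝ) + 1) ^ 2 := one_le_pow₀ (by linarith)
    have a3 : (1 : ℝ) ≤ C1 ^ 2 * 40000 * ((p : ℝ) + 1) ^ 2 := by nlinarith
    have a4 : (2 : ℝ) ^ p ≤ C1 ^ 2 * 40000 * ((p : ℝ) + 1) ^ 2 * 2 ^ p := by nlinarith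
    nlinarith
  have hlog : (p : ℝ) / 4 ≤ Real.log (1 + X) := by
    have h2 : Real.log ((2 : ℝ) ^ p) ≤ Real.log (X ^ 2) := Real.log_le_log (by positivity) hX3
    rw [Real.log_pow, Real.log_pow] at h2
    have h3 : Real.log X ≤ Real.log (1 + X) := Real.log_le_log hXpos (by linarith)
    have h4 : (p : ℝ) * (1 / 2) ≤ p * Real.log 2 :=
      mul_le_mul_of_nonneg_left log2_ge (Nat.cast_nonneg p)
    push_cast at h2
    linarith
  have hden : (((p : ℝ) + 1) / 4) ^ 2 ≤ (1 + Real.log (1 + X)) ^ 2 :=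
    pow_le_pow_left₀ (by positivity) (by linarith) 2
  have hmono := key_mono2 (abs_nonneg u) hu
  have hl3 : 0 < (1 + Real.log t) ^ 3 := by positivity
  unfold G2
  calc u ^ 2 / ((1 + Real.log t) ^ 3 * (1 + Real.log (1 + |u|)) ^ 2)
      = (|u| ^ 2 / (1 + Real.log (1 + |u|)) ^ 2) / (1 + Real.log t) ^ 3 := by
        rw [sq_abs, div_div, mul_comm]
    _ ≤ (X ^ 2 / (1 + Real.log (1 + X)) ^ 2) / (1 + Real.log t) ^ 3 :=
        div_le_div_of_nonneg_right hmono hl3.le
    _ ≤ (X ^ 2 / (((p : ℝ) + 1) / 4) ^ 2) / (1 + Real.log t) ^ 3 := by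
        apply div_le_div_of_nonneg_right _ hl3.le
        exact div_le_div_of_nonneg_left (by positivity) (by positivity) hden
    _ = C1 ^ 2 * 640000 * 2 ^ p := by
        rw [hX2]
        field_simp
        ring

/-- The constant of the exponent. -/
noncomputable def c2 (C1 : ℝ) : ℝ := Real.log 2 / 8 / (C1 ^ 2 * 640000)

lemma c2_pos {C1 : ℝ} (h1 : 1 ≤ C1) : 0 < c2 C1 := by
  unfold c2
  have := log2_ge
  positivity

lemma c2_le {C1 : ℝ} (h1 : 1 ≤ C1) : c2 C1 ≤ Real.log 2 / 4 := by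
  unfold c2
  have h2 := log2_ge
  have hC2 : (1 : ℝ) ≤ C1 ^ 2 := one_le_pow₀ h1
  rw [div_le_iff₀ (by positivity)]
  nlinarith

lemma Phi_le {C C1 t : ℝ} (h1 : 1 ≤ C1) (ht : 1 ≤ t) (r : ℕ) {u : ℝ}
    (hu : |u| ≤ 2 * C1 * (hp (r + 1) * lamt t)) : Phi (c2 C1) (C * Real.sqrt t) t u ≤ WW r := by
  unfold Phi
  split_ifs
  · exact (WW_pos r).le
  · unfold WW
    apply Real.exp_le_exp.mpr
    have h3 := mul_le_mul_of_nonneg_left (G2_le h1 ht (r + 1) hu) (c2_pos h1).le
    refine h3.trans (le_of_eq ?_)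
    unfold c2
    have h5 : C1 ^ 2 ≠ 0 := by positivity
    field_simp
    ring

theorem t_ACCB2 : S_ACCB2 := by
  intro hW C hC
  classical
  set C1 : ℝ := max C 1 with hC1
  have h1 : 1 ≤ C1 := le_max_right _ _
  refine ⟨c2 C1, 1006632960, c2_pos h1, by norm_num, ?_⟩
  intro t p0 ht hfit d Rel x hRel hx m hm
  have hc20 := c2_pos h1
  rcases Nat.eq_zero_or_pos m with hm0 | hm0
  · subst hm0
    simp
  set M : ℕ := Nat.log 2 m with hM
  have hlam := lamt_ge ht
  set Q : Fin d → ℕ := fun i =>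
    ((range (stt p0 i)).filter (fun T => i ∈ Rel T (lvl2 p0 (stt p0 i) T))).sup
      (fun T => lvl2 p0 (stt p0 i) T) with hQ
  have hxQ : ∀ i, |x i| ≤ C * (Real.sqrt t +
      (if max p0 (Q i) = p0 then 0 else hp (max p0 (Q i)) * lamt t)) := by
    intro i
    apply hx i (max p0 (Q i)) (le_max_left _ _)
    intro T hT hi
    refine le_trans ?_ (le_max_right _ _)
    exact Finset.le_sup (f := fun T => lvl2 p0 (stt p0 i) T)
      (mem_filter.mpr ⟨mem_range.mpr hT, hi⟩)
  have hnn : ∀ (i : Fin d) (r T : ℕ), (0 : ℝ) ≤ if i ∈ Rel T (r + 1) then WW r else 0 := by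
    intro i r T
    split_ifs
    · exact (WW_pos r).le
    · exact le_rfl
  have hpt : ∀ i ∈ univ.filter (fun i : Fin d => i.val < m),
      Phi (c2 C1) (C * Real.sqrt t) t (x i) ≤
      ∑ r ∈ (range (M + 1)).filter (fun r => p0 ≤ r),
        ∑ T ∈ (range (M + 1)).filter (fun T => T + 2 ^ r ≤ M),
          (if i ∈ Rel T (r + 1) then WW r else 0) := by
    intro i hi
    rw [mem_filter] at hi
    by_cases hcase : Q i ≤ p0
    · have h2 := hxQ i
      rw [max_eq_left hcase, if_pos rfl, add_zero] at h2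
      have h3 : Phi (c2 C1) (C * Real.sqrt t) t (x i) = 0 := by
        unfold Phi
        rw [if_pos h2]
      rw [h3]
      exact sum_nonneg fun r _ => sum_nonneg fun T _ => hnn i r T
    · have hcase' : p0 < Q i := by omega
      obtain ⟨r, hr⟩ : ∃ r, Q i = r + 1 := ⟨Q i - 1, by omega⟩
      have hr0 : p0 ≤ r := by omega
      have h2 := hxQ i
      rw [max_eq_right hcase'.le, if_neg (by omega), hr] at h2
      have h3 : Real.sqrt t ≤ hp (r + 1) * lamt t := by
        refine hfit.2.le.trans ?_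
        exact mul_le_mul_of_nonneg_right (hp_mono (by omega)) (by linarith)
      have h4 : |x i| ≤ 2 * C1 * (hp (r + 1) * lamt t) := by
        have h5 : 0 ≤ hp (r + 1) * lamt t := mul_nonneg (hp_pos _).le (by linarith)
        have h6 : C ≤ C1 := le_max_left _ _
        calc |x i| ≤ C * (Real.sqrt t + hp (r + 1) * lamt t) := h2
          _ ≤ C * (hp (r + 1) * lamt t + hp (r + 1) * lamt t) :=
              mul_le_mul_of_nonneg_left (by linarith) hC.le
          _ = C * (2 * (hp (r + 1) * lamt t)) := by ring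
          _ ≤ C1 * (2 * (hp (r + 1) * lamt t)) := mul_le_mul_of_nonneg_right h6 (by linarith)
          _ = _ := by ring
      refine (Phi_le (C := C) h1 ht r h4).trans ?_
      -- the time
      have hne : ((range (stt p0 i)).filter
          (fun T => i ∈ Rel T (lvl2 p0 (stt p0 i) T))).Nonempty := by
        by_contra hcon
        rw [not_nonempty_iff_eq_empty] at hcon
        have h0 : Q i = 0 := by
          show ((range (stt p0 i)).filter (fun T => i ∈ Rel T (lvl2 p0 (stt p0 i) T))).sup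
            (fun T => lvl2 p0 (stt p0 i) T) = 0
          rw [hcon]
          simp
        omega
      obtain ⟨T, hT, hTe⟩ := exists_mem_eq_sup _ hne (fun T => lvl2 p0 (stt p0 i) T)
      rw [mem_filter, mem_range] at hT
      have hTe' : Q i = lvl2 p0 (stt p0 i) T := hTe
      have hsc : scl i ≤ M := by
        unfold scl
        exact Nat.log_mono_right (by omega)
      have hT1 := (hW p0 (scl i / 2 ^ p0 + 1)).1 T hT.1 (by
        show p0 < lvl2 p0 (stt p0 i) T
        omega)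
      have hT2 : T + 2 ^ (r + 1) ≤ stt p0 i := by
        rw [← hr, hTe']
        exact hT1
      have hst : stt p0 i ≤ M + 2 ^ r := by
        unfold stt
        have a1 : scl i / 2 ^ p0 * 2 ^ p0 ≤ scl i := Nat.div_mul_le_self _ _
        have a2 : (2 : ℕ) ^ p0 ≤ 2 ^ r := Nat.pow_le_pow_right (by norm_num) hr0
        have a3 : (scl i / 2 ^ p0 + 1) * 2 ^ p0 = scl i / 2 ^ p0 * 2 ^ p0 + 2 ^ p0 := by ring
        rw [a3]
        omega
      have h3' : T + 2 ^ r ≤ M := by
        have a4 : (2 : ℕ) ^ (r + 1) = 2 ^ r + 2 ^ r := by ring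
        omega
      have h4' : r < 2 ^ r := Nat.lt_two_pow_self
      have h5 : r ∈ (range (M + 1)).filter (fun r => p0 ≤ r) := by
        rw [mem_filter, mem_range]
        exact ⟨by omega, hr0⟩
      have h6 : T ∈ (range (M + 1)).filter (fun T => T + 2 ^ r ≤ M) := by
        rw [mem_filter, mem_range]
        exact ⟨by omega, h3'⟩
      have h7 : i ∈ Rel T (r + 1) := by rw [← hr, hTe']; exact hT.2
      have h8 : WW r ≤ ∑ T ∈ (range (M + 1)).filter (fun T => T + 2 ^ r ≤ M),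
            (if i ∈ Rel T (r + 1) then WW r else 0) := by
        have h9 := single_le_sum (f := fun T => if i ∈ Rel T (r + 1) then WW r else 0)
          (fun T _ => hnn i r T) h6
        simpa [h7] using h9
      have h10 : ∑ T ∈ (range (M + 1)).filter (fun T => T + 2 ^ r ≤ M),
            (if i ∈ Rel T (r + 1) then WW r else 0) ≤
          ∑ r ∈ (range (M + 1)).filter (fun r => p0 ≤ r),
            ∑ T ∈ (range (M + 1)).filter (fun T => T + 2 ^ r ≤ M),
              (if i ∈ Rel T (r + 1) then WW r else 0) :=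
        single_le_sum (f := fun r => ∑ T ∈ (range (M + 1)).filter (fun T => T + 2 ^ r ≤ M),
            (if i ∈ Rel T (r + 1) then WW r else 0))
          (fun r _ => sum_nonneg fun T _ => hnn i r T) h5
      exact h8.trans h10
  refine (sum_le_sum hpt).trans ?_
  have hm1 : (2 : ℝ) ^ M ≤ m := by
    exact_mod_cast Nat.pow_log_le_self 2 (by omega)
  have hm0' : (0 : ℝ) ≤ m := Nat.cast_nonneg m
  set e0 : ℝ := Real.exp (-(c2 C1 * 2 ^ p0)) with he0
  have he0pos : 0 < e0 := Real.exp_pos _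
  have hWe : 1 ≤ WW p0 * e0 := by
    unfold WW
    rw [he0, ← Real.exp_add]
    apply Real.one_le_exp
    have h2 : c2 C1 * 2 ^ p0 ≤ Real.log 2 / 4 * 2 ^ p0 :=
      mul_le_mul_of_nonneg_right (c2_le h1) (by positivity)
    linarith
  have hswap : ∑ i ∈ univ.filter (fun i : Fin d => i.val < m),
      ∑ r ∈ (range (M + 1)).filter (fun r => p0 ≤ r),
        ∑ T ∈ (range (M + 1)).filter (fun T => T + 2 ^ r ≤ M),
          (if i ∈ Rel T (r + 1) then WW r else 0) ≤
      ∑ r ∈ (range (M + 1)).filter (fun r => p0 ≤ r),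
        503316480 * (1 / 2 : ℝ) ^ r * (e0 * (m : ℝ)) := by
    rw [sum_comm]
    apply sum_le_sum
    intro r hr
    have hr0 : p0 ≤ r := (mem_filter.mp hr).2
    rw [sum_comm]
    have h2 : ∀ T ∈ (range (M + 1)).filter (fun T => T + 2 ^ r ≤ M),
        ∑ i ∈ univ.filter (fun i : Fin d => i.val < m), (if i ∈ Rel T (r + 1) then WW r else 0)
          ≤ (64 * 2 ^ (T + 1) * 16 ^ r) * (16 * WW r) := by
      intro T _
      rw [← sum_filter, sum_const, nsmul_eq_mul]
      have h3 : (((univ.filter (fun i : Fin d => i.val < m)).filter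
          (fun i => i ∈ Rel T (r + 1))).card : ℝ) ≤ 64 * 2 ^ (T + 1) * 16 ^ (r + 1) := by
        refine le_trans ?_ (hRel T (r + 1))
        have h3' : ((univ.filter (fun i : Fin d => i.val < m)).filter
            (fun i => i ∈ Rel T (r + 1))).card ≤ (Rel T (r + 1)).card := by
          apply card_le_card
          intro i hi
          exact (mem_filter.mp hi).2
        exact_mod_cast h3'
      calc _ ≤ (64 * 2 ^ (T + 1) * 16 ^ (r + 1)) * WW r :=
            mul_le_mul_of_nonneg_right h3 (WW_pos r).le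
        _ = _ := by ring
    refine (sum_le_sum h2).trans ?_
    rw [← sum_mul]
    have hW0 := WW_pos r
    have hB := BB_pos r
    have h4 := mul_le_mul_of_nonneg_right (sum_T M r) (by positivity : (0 : ℝ) ≤ 16 * WW r)
    refine h4.trans ?_
    have h5 : 256 * 16 ^ r * 2 ^ M / 2 ^ (2 ^ r) * (16 * WW r)
        = 4096 * 16 ^ r * 2 ^ M / (WW r * BB r) := by
      rw [← BB_sq r, ← WW_sq r]
      field_simp
      ring
    rw [h5, div_le_iff₀ (by positivity)]
    have h6 := BB_lower r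
    have h7 : (16 : ℝ) ^ r = 32 ^ r * (1 / 2) ^ r := by
      rw [← mul_pow]; norm_num
    rw [h7]
    have h8 : (0 : ℝ) ≤ (1 / 2) ^ r := by positivity
    have h9 : 1 ≤ WW r * e0 :=
      hWe.trans (mul_le_mul_of_nonneg_right (WW_mono hr0) he0pos.le)
    calc 4096 * (32 ^ r * (1 / 2) ^ r) * 2 ^ M
        = 4096 * (1 / 2 : ℝ) ^ r * (32 ^ r * 2 ^ M) := by ring
      _ ≤ 4096 * (1 / 2 : ℝ) ^ r * ((122880 * BB r) * m) := by
          apply mul_le_mul_of_nonneg_left _ (by positivity)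
          exact mul_le_mul h6 hm1 (by positivity) (by positivity)
      _ = (503316480 * (1 / 2) ^ r * BB r * m) * 1 := by ring
      _ ≤ (503316480 * (1 / 2) ^ r * BB r * m) * (WW r * e0) :=
          mul_le_mul_of_nonneg_left h9 (by positivity)
      _ = 503316480 * (1 / 2) ^ r * (e0 * m) * (WW r * BB r) := by ring
  have hgeo : ∑ r ∈ (range (M + 1)).filter (fun r => p0 ≤ r),
      503316480 * (1 / 2 : ℝ) ^ r * (e0 * (m : ℝ)) ≤ 1006632960 * e0 * m := by
    have h2 : ∀ n : ℕ, ∑ r ∈ range n, (503316480 * (1 / 2 : ℝ) ^ r * (e0 * (m : ℝ)))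
        = 1006632960 * (1 - (1 / 2) ^ n) * (e0 * m) := by
      intro n
      induction n with
      | zero => simp
      | succ n ih => rw [sum_range_succ, ih]; ring
    have h3 : ∑ r ∈ (range (M + 1)).filter (fun r => p0 ≤ r),
        503316480 * (1 / 2 : ℝ) ^ r * (e0 * (m : ℝ)) ≤
        ∑ r ∈ range (M + 1), 503316480 * (1 / 2 : ℝ) ^ r * (e0 * (m : ℝ)) :=
      sum_le_sum_of_subset_of_nonneg (filter_subset _ _) fun _ _ _ => by positivity
    refine h3.trans ?_
    rw [h2]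
    have h4 : (0 : ℝ) ≤ (1 / 2) ^ (M + 1) * (e0 * m) := by positivity
    nlinarith
  exact hswap.trans hgeo

end Pool.Agent.K1H30.KomB
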